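import Mathlib

/-!
# Relations between translates of a function on a transitive set of prime power order
-/

set_option autoImplicit false

namespace Pool.Agent.SylowCM

open MulAction

/-- A Sylow subgroup is transitive on an orbit of prime power length. -/
theorem orbit_sylow {Γ X : Type*} [Group Γ] [Finite Γ] [MulAction Γ X] {l k : ℕ}
    [hl : Fact l.Prime] (x₀ : X) (hk : Nat.card (orbit Γ x₀) = l ^ k) (P : Sylow l Γ) :
    orbit P x₀ = orbit Γ x₀ := by
  have h1 : (stabilizer Γ x₀).index = l ^ k := by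
    rw [index_stabilizer, Set.ncard_def, ← hk]
    rfl
  have h2 : (stabilizer P x₀).index = (orbit P x₀).ncard := index_stabilizer P x₀
  have h3 : (stabilizer P x₀) = (stabilizer Γ x₀).subgroupOf (P : Subgroup Γ) := by
    ext p
    rfl
  have h4 : (stabilizer P x₀).index = (stabilizer Γ x₀).relIndex (P : Subgroup Γ) := by
    rw [h3]
    rfl
  have h5 := Subgroup.relIndex_mul_index (H := stabilizer Γ x₀ ⊓ (P : Subgroup Γ))
    (K := (P : Subgroup Γ)) inf_le_right
  have h6 := Subgroup.relIndex_mul_index (H := stabilizer Γ x₀ ⊓ (P : Subgroup Γ))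
    (K := stabilizer Γ x₀) inf_le_left
  rw [Subgroup.inf_relIndex_right] at h5
  have h7 : l ^ k ∣ (stabilizer Γ x₀).relIndex (P : Subgroup Γ) * (P : Subgroup Γ).index := by
    rw [h5, ← h6, h1]
    exact dvd_mul_left _ _
  have h8 : l ^ k ∣ (stabilizer Γ x₀).relIndex (P : Subgroup Γ) :=
    (hl.1.coprime_pow_of_not_dvd P.not_dvd_index).symm.dvd_of_dvd_mul_right h7
  have hfin : (orbit Γ x₀).Finite := Set.finite_range _
  refine Set.eq_of_subset_of_ncard_le ?_ ?_ hfin
  · rintro _ ⟨p, rfl⟩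
    exact ⟨(p : Γ), rfl⟩
  · rw [← h2, h4]
    have h9 : (orbit Γ x₀).ncard = l ^ k := by
      rw [← h1, index_stabilizer]
    rw [h9]
    refine Nat.le_of_dvd ?_ h8
    rw [← h4]
    exact Nat.pos_of_ne_zero Subgroup.FiniteIndex.index_ne_zero

section ModL

variable {G X : Type*} [Group G] [Finite G] [Fintype X] [MulAction G X] {l k : ℕ}
  [hl : Fact l.Prime]

/-- Relations modulo `l` between the translates of `f`. -/
def rel (f : X → ZMod l) : Submodule (ZMod l) (X → ZMod l) where
  carrier := {v | ∀ g : G, ∑ x, v x * f (g • x) = 0}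
  add_mem' := by
    intro a b ha hb g
    simp only [Pi.add_apply, add_mul, Finset.sum_add_distrib, ha g, hb g, add_zero]
  zero_mem' := by
    intro g
    simp
  smul_mem' := by
    intro c a ha g
    simp only [Pi.smul_apply, smul_eq_mul, mul_assoc, ← Finset.mul_sum, ha g, mul_zero]

omit [Finite G] in
theorem mem_rel {f v : X → ZMod l} : v ∈ rel (G := G) f ↔ ∀ g : G, ∑ x, v x * f (g • x) = 0 :=
  Iff.rfl

omit [Finite G] in
theorem translate_mem {f v : X → ZMod l} (hv : v ∈ rel (G := G) f) (h : G) :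
    (fun x => v (h • x)) ∈ rel (G := G) f := by
  intro g
  have h1 := hv (g * h⁻¹)
  rw [← h1]
  refine Fintype.sum_equiv (MulAction.toPerm h) _ _ fun x => ?_
  simp [mul_smul]

open Classical in
/-- Restriction to a subset. -/
noncomputable def res (Y : Set X) : (X → ZMod l) →ₗ[ZMod l] (X → ZMod l) where
  toFun v := fun x => if x ∈ Y then v x else 0
  map_add' := by
    intro a b
    funext x
    by_cases h : x ∈ Y <;> simp [h]
  map_smul' := by
    intro c a
    funext x
    by_cases h : x ∈ Y <;> simp [h]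

omit [Fintype X] in
theorem res_apply_of_mem {Y : Set X} {v : X → ZMod l} {x : X} (h : x ∈ Y) : res Y v x = v x := by
  simp [res, h]

omit [Fintype X] in
theorem res_apply_of_notMem {Y : Set X} {v : X → ZMod l} {x : X} (h : x ∉ Y) : res Y v x = 0 := by
  simp [res, h]

theorem rel_eq_zero [IsPretransitive G X] (H : Subgroup G) (x₀ : X)
    (hk : Nat.card (orbit H x₀) = l ^ k) {f : X → ZMod l}
    (hf : ∀ x ∉ orbit H x₀, f x = 0) (hs : ∑ x, f x ≠ 0) {v : X → ZMod l}
    (hv : v ∈ rel (G := G) f) : v = 0 := by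
  classical
  by_contra hne
  obtain ⟨x₁, hx₁⟩ : ∃ x, v x ≠ 0 := by
    by_contra hcon
    push Not at hcon
    exact hne (funext hcon)
  obtain ⟨g, hg⟩ := MulAction.exists_smul_eq G x₀ x₁
  set Y : Set X := orbit H x₀ with hY
  set W : Submodule (ZMod l) (X → ZMod l) := (rel (G := G) f).map (res Y) with hW
  have hYst : ∀ (p : H) (x : X), ((p : G)⁻¹ • x) ∈ Y ↔ x ∈ Y := by
    intro p x
    constructor
    · rintro ⟨q, hq⟩
      refine ⟨p * q, ?_⟩
      change ((p : G) * (q : G)) • x₀ = x
      change (q : G) • x₀ = _ at hq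
      rw [mul_smul, hq, smul_inv_smul]
    · rintro ⟨q, rfl⟩
      refine ⟨p⁻¹ * q, ?_⟩
      change ((p : G)⁻¹ * (q : G)) • x₀ = (p : G)⁻¹ • (q : G) • x₀
      rw [mul_smul]
  obtain ⟨P⟩ : Nonempty (Sylow l H) := inferInstance
  have hst : ∀ (p : P) (w : W), (fun x => (w : X → ZMod l) (((p : H) : G)⁻¹ • x)) ∈ W := by
    rintro p ⟨_, v', hv', rfl⟩
    refine ⟨fun x => v' (((p : H) : G)⁻¹ • x), translate_mem hv' _, ?_⟩
    funext x
    by_cases hx : x ∈ Y
    · rw [res_apply_of_mem hx]
      exact (res_apply_of_mem ((hYst p x).mpr hx)).symm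
    · rw [res_apply_of_notMem hx]
      exact (res_apply_of_notMem fun h => hx ((hYst p x).mp h)).symm
  let act : MulAction P W :=
    { smul := fun p w => ⟨_, hst p w⟩
      one_smul := by
        intro w
        apply Subtype.ext
        funext x
        change (w : X → ZMod l) ((((1 : P) : H) : G)⁻¹ • x) = _
        simp
      mul_smul := by
        intro p q w
        apply Subtype.ext
        funext x
        change (w : X → ZMod l) ((((p * q : P) : H) : G)⁻¹ • x) =
          (w : X → ZMod l) (((q : H) : G)⁻¹ • ((p : H) : G)⁻¹ • x)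
        simp [mul_smul] }
  have hact : ∀ (p : P) (w : W) (x : X),
      ((p • w : W) : X → ZMod l) x = (w : X → ZMod l) (((p : H) : G)⁻¹ • x) := fun _ _ _ => rfl
  -- a nonzero element
  have hx₀Y : x₀ ∈ Y := mem_orbit_self x₀
  set w₀ : W := ⟨res Y (fun x => v (g • x)), _, translate_mem hv g, rfl⟩ with hw₀
  have hw₀ne : w₀ ≠ 0 := by
    intro h0
    have h1 := congrFun (congrArg Subtype.val h0) x₀
    change res Y (fun x => v (g • x)) x₀ = 0 at h1
    rw [res_apply_of_mem hx₀Y, hg] at h1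
    exact hx₁ h1
  have hcard : l ∣ Nat.card W := by
    have h1 : addOrderOf w₀ ∣ l := by
      apply addOrderOf_dvd_of_nsmul_eq_zero
      apply Subtype.ext
      funext x
      change l • ((w₀ : X → ZMod l) x) = 0
      rw [nsmul_eq_mul, CharP.cast_eq_zero, zero_mul]
    rcases (Nat.dvd_prime hl.1).mp h1 with h2 | h2
    · rw [AddMonoid.addOrderOf_eq_one_iff] at h2
      exact absurd h2 hw₀ne
    · exact (dvd_of_eq h2.symm).trans (addOrderOf_dvd_natCard w₀)
  have hfix0 : (0 : W) ∈ fixedPoints P W := by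
    intro p
    apply Subtype.ext
    funext x
    rfl
  have hfinW : Finite W := inferInstance
  obtain ⟨b, hb, hb0⟩ := P.isPGroup'.exists_fixed_point_of_prime_dvd_card_of_fixed_point W
    hcard hfix0
  have hconst : ∀ x ∈ Y, (b : X → ZMod l) x = (b : X → ZMod l) x₀ := by
    intro x hx
    have h1 : x ∈ orbit P x₀ := by
      have h2 : orbit P x₀ = orbit H x₀ := orbit_sylow x₀ hk P
      rw [h2]
      exact hx
    obtain ⟨p, rfl⟩ := h1
    have h3 := congrFun (congrArg Subtype.val (hb p)) ((((p : H) : G)) • x₀)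
    rw [hact, inv_smul_smul] at h3
    exact h3.symm
  have hoff : ∀ x ∉ Y, (b : X → ZMod l) x = 0 := by
    intro x hx
    obtain ⟨_, v', hv', rfl⟩ := b
    exact res_apply_of_notMem hx
  have hbx₀ : (b : X → ZMod l) x₀ ≠ 0 := by
    intro h0
    apply hb0
    apply Subtype.ext
    funext x
    by_cases hx : x ∈ Y
    · rw [hconst x hx, h0]
      rfl
    · rw [hoff x hx]
      rfl
  obtain ⟨v', hv', hbv⟩ := b.2
  have h4 := hv' 1
  simp only [one_smul] at h4
  have h5 : ∑ x, v' x * f x = (b : X → ZMod l) x₀ * ∑ x, f x := by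
    rw [Finset.mul_sum]
    refine Finset.sum_congr rfl fun x _ => ?_
    by_cases hx : x ∈ Y
    · rw [← hconst x hx, ← hbv, res_apply_of_mem hx]
    · rw [hf x hx, mul_zero, mul_zero]
  rw [h5] at h4
  exact (mul_ne_zero hbx₀ hs) h4

/-- The integral version. -/
theorem eq_zero_of_rel [IsPretransitive G X] (H : Subgroup G) (x₀ : X)
    (hk : Nat.card (orbit H x₀) = l ^ k) {f : X → ℤ}
    (hf : ∀ x ∉ orbit H x₀, f x = 0) (hs : ¬ (l : ℤ) ∣ ∑ x, f x) {n : X → ℤ}
    (hn : ∀ g : G, ∑ x, n x * f (g • x) = 0) : n = 0 := by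
  have key : ∀ m : ℕ, ∀ x, ((l : ℤ) ^ m) ∣ n x := by
    intro m
    induction m with
    | zero => intro x; simp
    | succ m ih =>
      choose n' hn' using ih
      have hl0 : ((l : ℤ) ^ m) ≠ 0 := pow_ne_zero _ (by exact_mod_cast hl.1.ne_zero)
      have h1 : ∀ g : G, ∑ x, n' x * f (g • x) = 0 := by
        intro g
        have h2 := hn g
        have h3 : ∑ x, n x * f (g • x) = (l : ℤ) ^ m * ∑ x, n' x * f (g • x) := by
          rw [Finset.mul_sum]
          refine Finset.sum_congr rfl fun x _ => ?_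
          rw [hn' x, mul_assoc]
        rw [h3] at h2
        exact (mul_eq_zero.mp h2).resolve_left hl0
      have h4 : (fun x => ((n' x : ℤ) : ZMod l)) ∈
          rel (G := G) (fun x => ((f x : ℤ) : ZMod l)) := by
        intro g
        have h5 := congrArg (Int.cast : ℤ → ZMod l) (h1 g)
        push_cast at h5
        exact h5
      have h6 := rel_eq_zero (k := k) H x₀ hk (f := fun x => ((f x : ℤ) : ZMod l)) (by
        intro x hx
        simp [hf x hx]) (by
        intro h7
        apply hs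
        have h8 : ((∑ x, f x : ℤ) : ZMod l) = 0 := by
          push_cast
          exact h7
        exact (ZMod.intCast_zmod_eq_zero_iff_dvd _ l).mp h8) h4
      intro x
      have h9 := congrFun h6 x
      change ((n' x : ℤ) : ZMod l) = 0 at h9
      have h10 := (ZMod.intCast_zmod_eq_zero_iff_dvd _ l).mp h9
      rw [hn' x, pow_succ]
      exact mul_dvd_mul_left _ h10
  funext x
  have h1 := key (n x).natAbs x
  apply Int.eq_zero_of_abs_lt_dvd h1
  have h2 : (n x).natAbs < l ^ (n x).natAbs := Nat.lt_pow_self hl.1.one_lt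
  have h3 : (|n x| : ℤ) = ((n x).natAbs : ℤ) := Int.abs_eq_natAbs _
  rw [h3]
  exact_mod_cast h2

end ModL

section Nondegenerate

variable {X : Type*} [Fintype X] {Γ : Type*} [Group Γ] [Finite Γ] [MulAction Γ X] {l k : ℕ}
  [hl : Fact l.Prime]

/-- Nondegeneracy of a CM type `Φ` on a set `X` with complex conjugation `c`. -/
theorem nondegenerate (G H : Subgroup Γ) (hHG : H ≤ G) (c : X → X) (hc : ∀ x, c (c x) = x)
    (hcG : ∀ g ∈ G, ∀ x, g • c x = c (g • x)) (x₀ : X)
    (h1 : ∀ x, x ∈ orbit G x₀ ∨ c x ∈ orbit G x₀) (h2 : c x₀ ∉ orbit G x₀)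
    (hk : Nat.card (orbit H x₀) = l ^ k) (Φ : X → Prop) [DecidablePred Φ]
    (hΦc : ∀ x, Φ (c x) ↔ ¬ Φ x)
    (hΦ : ∀ x ∈ orbit G x₀, Φ x → x ∈ orbit H x₀)
    (ha : ¬ l ∣ Nat.card {x : X // x ∈ orbit G x₀ ∧ Φ x})
    (ha2 : 2 * Nat.card {x : X // x ∈ orbit G x₀ ∧ Φ x} ≠ Nat.card (orbit G x₀))
    (L : X → ℤ) (hL : ∀ g ∈ G, ∑ x, L x * (if Φ (g • x) then 1 else -1) = 0) (x : X) :
    L (c x) = L x := by
  classical
  have hx₀ : x₀ ∈ orbit G x₀ := mem_orbit_self x₀
  have hexcl : ∀ x, x ∈ orbit G x₀ → c x ∉ orbit G x₀ := by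
    rintro _ ⟨g, rfl⟩ hcx
    apply h2
    change c ((g : Γ) • x₀) ∈ _ at hcx
    rw [← hcG g g.2] at hcx
    obtain ⟨h, hh⟩ := hcx
    refine ⟨g⁻¹ * h, ?_⟩
    change ((g : Γ)⁻¹ * (h : Γ)) • x₀ = c x₀
    change (h : Γ) • x₀ = (g : Γ) • c x₀ at hh
    rw [mul_smul, hh, inv_smul_smul]
  set s : X → ℤ := fun x => if Φ x then 1 else -1 with hs
  have hsc : ∀ x, s (c x) = -s x := by
    intro x
    simp only [hs]
    by_cases h : Φ x
    · rw [if_pos h, if_neg (fun h' => (hΦc x).mp h' h)]
    · rw [if_neg h, if_pos ((hΦc x).mpr h), neg_neg]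
  let n : orbit G x₀ → ℤ := fun x => L x - L (c x)
  have hfinG : Fintype G := Fintype.ofFinite G
  have hsum : ∀ F : X → ℤ, ∑ x, F x = ∑ x : orbit G x₀, (F x + F (c x)) := by
    intro F
    rw [← Finset.sum_filter_add_sum_filter_not Finset.univ (fun x => x ∈ orbit G x₀),
      Finset.sum_add_distrib]
    congr 1
    · rw [Finset.sum_subtype]
      intro x
      simp
    · have h3 : ∑ x ∈ Finset.univ.filter (fun x => ¬ x ∈ orbit G x₀), F x =
          ∑ x ∈ Finset.univ.filter (fun x => x ∈ orbit G x₀), F (c x) := by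
        refine Finset.sum_nbij' c c ?_ ?_ ?_ ?_ ?_
        · intro x hx
          simp only [Finset.mem_filter, Finset.mem_univ, true_and] at hx ⊢
          exact (h1 x).resolve_left hx
        · intro x hx
          simp only [Finset.mem_filter, Finset.mem_univ, true_and] at hx ⊢
          exact hexcl x hx
        · intro x _
          exact hc x
        · intro x _
          exact hc x
        · intro x _
          rw [hc]
      rw [h3, Finset.sum_subtype]
      intro x
      simp
  have hrel : ∀ g : G, ∑ x : orbit G x₀, n x * s ((g • x : orbit G x₀) : X) = 0 := by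
    intro g
    have h3 := hL g g.2
    rw [hsum] at h3
    rw [← h3]
    refine Finset.sum_congr rfl fun x _ => ?_
    have h4 : s ((g : Γ) • c (x : X)) = -s ((g : Γ) • (x : X)) := by
      rw [hcG g g.2, hsc]
    have h5 : ((g • x : orbit G x₀) : X) = (g : Γ) • (x : X) := rfl
    rw [h5]
    change (L x - L (c x)) * s ((g : Γ) • (x : X)) =
      L x * s ((g : Γ) • (x : X)) + L (c x) * s ((g : Γ) • c (x : X))
    rw [h4]
    ring
  -- the number of elements of the type in the orbit
  set a : ℕ := Nat.card {x : X // x ∈ orbit G x₀ ∧ Φ x} with haa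
  have hφsum : ∑ x : orbit G x₀, (if Φ (x : X) then (1 : ℤ) else 0) = a := by
    rw [Finset.sum_boole, haa]
    congr 1
    rw [← Fintype.card_subtype, ← Nat.card_eq_fintype_card]
    refine Nat.card_congr (Equiv.subtypeSubtypeEquivSubtypeInter _ _)
  have hs2 : ∀ x, s x = 2 * (if Φ x then (1 : ℤ) else 0) - 1 := by
    intro x
    simp only [hs]
    by_cases h : Φ x <;> simp [h]
  have hS : ∑ x : orbit G x₀, s x = 2 * a - Nat.card (orbit G x₀) := by
    simp only [hs2]
    rw [Finset.sum_sub_distrib, ← Finset.mul_sum, hφsum]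
    simp [Nat.card_eq_fintype_card]
  set T : orbit G x₀ → ℤ := fun x => ∑ g : G, s ((g • x : orbit G x₀) : X) with hT
  have hTc : ∀ x, T x = T ⟨x₀, hx₀⟩ := by
    intro x
    obtain ⟨h, hh⟩ := MulAction.exists_smul_eq G (⟨x₀, hx₀⟩ : orbit G x₀) x
    simp only [hT]
    rw [← hh]
    refine Fintype.sum_equiv (Equiv.mulRight h) _ _ fun g => ?_
    rw [Equiv.coe_mulRight, mul_smul]
  have hTsum : ∑ x, T x = Nat.card G * (2 * a - Nat.card (orbit G x₀) : ℤ) := by
    simp only [hT]
    rw [Finset.sum_comm]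
    have h3 : ∀ g : G, ∑ x : orbit G x₀, s ((g • x : orbit G x₀) : X) =
        2 * a - Nat.card (orbit G x₀) := by
      intro g
      rw [← hS]
      exact Fintype.sum_equiv (MulAction.toPerm g) _ _ fun x => rfl
    rw [Finset.sum_congr rfl fun g _ => h3 g, Finset.sum_const, Finset.card_univ, nsmul_eq_mul,
      ← Nat.card_eq_fintype_card (α := G)]
  have hT0 : T ⟨x₀, hx₀⟩ ≠ 0 := by
    intro h0
    have h3 : ∑ x, T x = 0 := Finset.sum_eq_zero fun x _ => by rw [hTc, h0]
    rw [hTsum] at h3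
    rcases mul_eq_zero.mp h3 with h4 | h4
    · have : 0 < Nat.card G := Nat.card_pos
      exact absurd h4 (by exact_mod_cast this.ne')
    · apply ha2
      have h5 : (2 * a : ℤ) = Nat.card (orbit G x₀) := by linarith
      exact_mod_cast h5
  have hn0 : ∑ x, n x = 0 := by
    have h3 : ∑ x, n x * T x = 0 := by
      simp only [hT, Finset.mul_sum]
      rw [Finset.sum_comm]
      exact Finset.sum_eq_zero fun g _ => hrel g
    simp only [hTc] at h3
    rw [← Finset.sum_mul] at h3
    exact (mul_eq_zero.mp h3).resolve_right hT0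
  have hrel2 : ∀ g : G, ∑ x : orbit G x₀, n x *
      (fun y : orbit G x₀ => if Φ (y : X) then (1 : ℤ) else 0) (g • x) = 0 := by
    intro g
    have h3 := hrel g
    simp only [hs2] at h3
    have h4 : ∑ x : orbit G x₀, n x *
        (2 * (if Φ ((g • x : orbit G x₀) : X) then (1 : ℤ) else 0) - 1) =
        2 * (∑ x : orbit G x₀, n x * (if Φ ((g • x : orbit G x₀) : X) then (1 : ℤ) else 0)) -
        ∑ x, n x := by
      rw [Finset.mul_sum, ← Finset.sum_sub_distrib]
      refine Finset.sum_congr rfl fun x _ => ?_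
      ring
    rw [h4, hn0, sub_zero] at h3
    exact (mul_eq_zero.mp h3).resolve_left two_ne_zero
  have horb : ∀ x : orbit G x₀, x ∈ orbit (H.subgroupOf G) (⟨x₀, hx₀⟩ : orbit G x₀) ↔
      (x : X) ∈ orbit H x₀ := by
    intro x
    constructor
    · rintro ⟨h, rfl⟩
      exact ⟨⟨(h : G), h.2⟩, rfl⟩
    · rintro ⟨h, hh⟩
      refine ⟨⟨⟨h, hHG h.2⟩, h.2⟩, ?_⟩
      apply Subtype.ext
      exact hh
  have hcard : Nat.card (orbit (H.subgroupOf G) (⟨x₀, hx₀⟩ : orbit G x₀)) = l ^ k := by
    rw [← hk, Nat.card_coe_set_eq, Nat.card_coe_set_eq,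
      ← Set.ncard_image_of_injective _ Subtype.val_injective]
    congr 1
    ext y
    constructor
    · rintro ⟨x, hx, rfl⟩
      exact (horb x).mp hx
    · rintro ⟨h, hh⟩
      have hy : y ∈ orbit G x₀ := ⟨⟨h, hHG h.2⟩, hh⟩
      exact ⟨⟨y, hy⟩, (horb ⟨y, hy⟩).mpr ⟨h, hh⟩, rfl⟩
  have hfinal := eq_zero_of_rel (G := G) (X := orbit G x₀) (l := l) (k := k) (H.subgroupOf G)
    ⟨x₀, hx₀⟩ hcard (f := fun y => if Φ (y : X) then (1 : ℤ) else 0) (by
      intro x hx
      apply if_neg
      intro hΦx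
      exact hx ((horb x).mpr (hΦ x x.2 hΦx))) (by
      rw [hφsum]
      exact_mod_cast ha) hrel2
  have hO : ∀ x ∈ orbit G x₀, L x = L (c x) := by
    intro x hx
    have h3 := congrFun hfinal ⟨x, hx⟩
    have h4 : L x - L (c x) = 0 := h3
    linarith
  rcases h1 x with h3 | h3
  · exact (hO x h3).symm
  · have h4 := hO (c x) h3
    rw [hc] at h4
    exact h4

end Nondegenerate

end Pool.Agent.SylowCM
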